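import Mathlib

/-!
Hashing: from pairs of integer vectors to corner-free sets in `((ℤ/m)^ι)^2`.
-/

set_option autoImplicit false
set_option linter.unusedSectionVars false

namespace Pool.Agent.N68.Corner

open Finset

/-- `A ⊆ G × G` contains no nontrivial corner `(x, y), (x, y + z), (x + z, y)`, `z ≠ 0`. -/
def CornerFree {G : Type*} [AddCommGroup G] (A : Finset (G × G)) : Prop :=
  ∀ x y z : G, (x, y) ∈ A → (x, y + z) ∈ A → (x + z, y) ∈ A → z = 0

variable {ι : Type*} [Fintype ι] [DecidableEq ι]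

/-- reduction of an integer vector -/
def red (m : ℕ) (u : ι → ℤ) : ι → ZMod m := fun i => (u i : ZMod m)

lemma red_add (m : ℕ) (u v : ι → ℤ) : red m (u + v) = red m u + red m v := by
  funext i
  simp [red]

/-- the linear functional `a` -/
def dot {Q : ℕ} (a : ι → ZMod Q) (u : ι → ℤ) : ZMod Q := ∑ i, a i * (u i : ZMod Q)

lemma dot_add {Q : ℕ} (a : ι → ZMod Q) (u v : ι → ℤ) : dot a (u + v) = dot a u + dot a v := by
  unfold dot
  rw [← sum_add_distrib]
  apply sum_congr rfl
  intro i _
  simp only [Pi.add_apply]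
  push_cast
  ring

lemma dot_sub {Q : ℕ} (a : ι → ZMod Q) (u v : ι → ℤ) : dot a (u - v) = dot a u - dot a v := by
  unfold dot
  rw [← sum_sub_distrib]
  apply sum_congr rfl
  intro i _
  simp only [Pi.sub_apply]
  push_cast
  ring

/-- a nonzero vector is orthogonal to at most the `Q`-th part of all vectors -/
lemma card_ker {Q : ℕ} [hQ : Fact Q.Prime] (w : ι → ℤ) (i0 : ι) (hw : (w i0 : ZMod Q) ≠ 0) :
    Q * (univ.filter (fun a : ι → ZMod Q => dot a w = 0)).card ≤ Q ^ Fintype.card ι := by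
  classical
  set S := univ.filter (fun a : ι → ZMod Q => dot a w = 0) with hS
  have h1 : (univ ×ˢ S : Finset (ZMod Q × (ι → ZMod Q))).card = Q * S.card := by
    rw [card_product, card_univ, ZMod.card]
  have h2 : Fintype.card (ι → ZMod Q) = Q ^ Fintype.card ι := by
    rw [Fintype.card_fun, ZMod.card]
  rw [← h1, ← h2, ← card_univ]
  apply card_le_card_of_injOn (fun q => q.2 + Pi.single i0 q.1) (fun _ _ => mem_coe.2 (mem_univ _))
  rintro ⟨t, a⟩ hq ⟨t', a'⟩ hq' h
  simp only [coe_product, Set.mem_prod, mem_coe, hS, mem_filter] at hq hq'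
  simp only at h
  have hd : ∀ (a : ι → ZMod Q) (t : ZMod Q), dot (a + Pi.single i0 t) w =
      dot a w + t * (w i0 : ZMod Q) := by
    intro a t
    unfold dot
    have : ∀ i, (a + Pi.single i0 t : ι → ZMod Q) i * (w i : ZMod Q) =
        a i * (w i : ZMod Q) + (if i = i0 then t * (w i0 : ZMod Q) else 0) := by
      intro i
      simp only [Pi.add_apply, Pi.single_apply]
      split_ifs with hi
      · subst hi; ring
      · ring
    rw [sum_congr rfl fun i _ => this i, sum_add_distrib, sum_ite_eq' univ i0]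
    simp
  have h3 := congrArg (fun b => dot b w) h
  simp only [hd, hq.2.2, hq'.2.2, zero_add] at h3
  have h4 : t = t' := mul_right_cancel₀ hw h3
  subst h4
  have h5 : a = a' := add_right_cancel h
  rw [h5]

/-- squared length -/
def nrm (u : ι → ℤ) : ℤ := ∑ i, u i ^ 2

/-- The geometric reason for corner-freeness. -/
lemma rigid (u v d : ι → ℤ) (R : ℤ) (h1 : nrm u = R) (h2 : nrm v = R) (h3 : nrm (u + v) = R)
    (h4 : nrm (v + d) = R) (h5 : nrm (u + d) = R) (h6 : nrm (u + v + d) = R) : d = 0 := by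
  have key : ∑ i, d i ^ 2 = 0 := by
    have e : ∀ i, d i ^ 2 = ((u + d) i) ^ 2 + ((v + d) i) ^ 2 + ((u + v) i) ^ 2
        - ((u + v + d) i) ^ 2 - (u i) ^ 2 - (v i) ^ 2 := by
      intro i
      simp only [Pi.add_apply]
      ring
    rw [sum_congr rfl fun i _ => e i]
    simp only [sum_sub_distrib, sum_add_distrib]
    unfold nrm at *
    linarith
  have h7 := (sum_eq_zero_iff_of_nonneg (fun i _ => sq_nonneg (d i))).1 key
  funext i
  exact pow_eq_zero_iff (two_ne_zero) |>.1 (h7 i (mem_univ i))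

/-- **Hashing.** `B` is a set of integer vectors with bounded entries and equal lengths, which has
at most `μ` elements in every residue class modulo `m`, and `T` a set of pairs `(u, v)` with `u`,
`v`, `u + v ∈ B`. Then there is a corner-free set with at least `|T| / (2 Q²)` elements. -/
theorem hash (m : ℕ) (L μ Q : ℕ) [hQ : Fact Q.Prime] (hQL : 2 * L < Q) (hQμ : 6 * μ ≤ Q)
    (R : ℤ) (B : Finset (ι → ℤ)) (hB : ∀ u ∈ B, (∀ i, |u i| ≤ L) ∧ nrm u = R)
    (hμ : ∀ x : ι → ZMod m, (B.filter (fun u => red m u = x)).card ≤ μ)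
    (T : Finset ((ι → ℤ) × (ι → ℤ))) (hT : ∀ t ∈ T, t.1 ∈ B ∧ t.2 ∈ B ∧ t.1 + t.2 ∈ B) :
    ∃ A : Finset ((ι → ZMod m) × (ι → ZMod m)), CornerFree A ∧
      T.card ≤ 2 * Q ^ 2 * A.card := by
  classical
  -- aliases
  let al : (ι → ZMod Q) → (ι → ℤ) → Prop := fun a u =>
    ∃ u' ∈ B, u' ≠ u ∧ red m u' = red m u ∧ dot a u' = dot a u
  -- every vector has few aliases on average
  have hal : ∀ u ∈ B, Q * (univ.filter (fun a : ι → ZMod Q => al a u)).card ≤
      μ * Q ^ Fintype.card ι := by
    intro u hu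
    set C := B.filter (fun u' => red m u' = red m u) with hC
    have h1 : (univ.filter (fun a : ι → ZMod Q => al a u)) ⊆
        (C.erase u).biUnion (fun u' => univ.filter (fun a : ι → ZMod Q => dot a (u' - u) = 0)) := by
      intro a ha
      obtain ⟨u', hu', hne, hr, hd⟩ := (mem_filter.1 ha).2
      rw [mem_biUnion]
      refine ⟨u', mem_erase.2 ⟨hne, mem_filter.2 ⟨hu', hr⟩⟩, ?_⟩
      rw [mem_filter]
      refine ⟨mem_univ _, ?_⟩
      rw [dot_sub, hd, sub_self]
    have h2 : ∀ u' ∈ C.erase u,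
        Q * (univ.filter (fun a : ι → ZMod Q => dot a (u' - u) = 0)).card ≤
          Q ^ Fintype.card ι := by
      intro u' hu'
      rw [mem_erase] at hu'
      have hu'B : u' ∈ B := (mem_filter.1 hu'.2).1
      obtain ⟨i0, hi0⟩ : ∃ i, u' i ≠ u i := by
        by_contra hcon
        push Not at hcon
        exact hu'.1 (funext hcon)
      apply card_ker (u' - u) i0
      intro hz
      rw [ZMod.intCast_zmod_eq_zero_iff_dvd] at hz
      have b1 := (hB u' hu'B).1 i0
      have b2 := (hB u hu).1 i0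
      rw [Pi.sub_apply] at hz
      have h3 : |u' i0 - u i0| < Q := by
        have := abs_sub (u' i0) (u i0)
        have hQ' : ((2 * L : ℕ) : ℤ) < Q := by exact_mod_cast hQL
        push_cast at hQ'
        linarith
      have h4 := Int.eq_zero_of_abs_lt_dvd hz h3
      exact hi0 (by linarith)
    calc Q * (univ.filter (fun a : ι → ZMod Q => al a u)).card
        ≤ Q * ∑ u' ∈ C.erase u,
            (univ.filter (fun a : ι → ZMod Q => dot a (u' - u) = 0)).card :=
          Nat.mul_le_mul_left _ ((card_le_card h1).trans card_biUnion_le)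
      _ = ∑ u' ∈ C.erase u,
            Q * (univ.filter (fun a : ι → ZMod Q => dot a (u' - u) = 0)).card := by
          rw [mul_sum]
      _ ≤ ∑ u' ∈ C.erase u, Q ^ Fintype.card ι := sum_le_sum h2
      _ = (C.erase u).card * Q ^ Fintype.card ι := by rw [sum_const, smul_eq_mul]
      _ ≤ μ * Q ^ Fintype.card ι := by
          apply Nat.mul_le_mul_right
          exact (card_le_card (erase_subset _ _)).trans (hμ _)
  -- some `a` is good for half of the pairs
  let bad : (ι → ZMod Q) → (ι → ℤ) × (ι → ℤ) → Prop := fun a t =>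
    al a t.1 ∨ al a t.2 ∨ al a (t.1 + t.2)
  have hbad : ∀ t ∈ T, Q * (univ.filter (fun a : ι → ZMod Q => bad a t)).card ≤
      3 * μ * Q ^ Fintype.card ι := by
    intro t ht
    obtain ⟨t1, t2, t3⟩ := hT t ht
    have h1 : (univ.filter (fun a : ι → ZMod Q => bad a t)) ⊆
        (univ.filter (fun a : ι → ZMod Q => al a t.1)) ∪
          ((univ.filter (fun a : ι → ZMod Q => al a t.2)) ∪
            (univ.filter (fun a : ι → ZMod Q => al a (t.1 + t.2)))) := by
      intro a ha
      simp only [mem_union, mem_filter, mem_univ, true_and] at ha ⊢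
      exact ha
    have h2 := (card_le_card h1).trans ((card_union_le _ _).trans
      (Nat.add_le_add_left (card_union_le _ _) _))
    have e1 := hal _ t1
    have e2 := hal _ t2
    have e3 := hal _ t3
    calc _ ≤ Q * _ := Nat.mul_le_mul_left _ h2
      _ ≤ _ := by
        rw [mul_add, mul_add]
        linarith
  have hex : ∃ a : ι → ZMod Q, T.card ≤ 2 * (T.filter (fun t => ¬ bad a t)).card := by
    by_contra hcon
    push Not at hcon
    have h1 : ∀ a : ι → ZMod Q, T.card < 2 * (T.filter (fun t => bad a t)).card := by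
      intro a
      have := hcon a
      have h2 := card_filter_add_card_filter_not (s := T) (fun t => bad a t)
      omega
    have h2 : ∑ a : ι → ZMod Q, T.card < ∑ a : ι → ZMod Q, 2 * (T.filter (fun t => bad a t)).card :=
      sum_lt_sum_of_nonempty univ_nonempty fun a _ => h1 a
    rw [sum_const, card_univ, Fintype.card_fun, ZMod.card, smul_eq_mul, ← mul_sum] at h2
    have h3 : ∑ a : ι → ZMod Q, (T.filter (fun t => bad a t)).card =
        ∑ t ∈ T, (univ.filter (fun a : ι → ZMod Q => bad a t)).card := by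
      simp only [card_filter]
      rw [sum_comm]
    rw [h3] at h2
    have h4 : Q * ∑ t ∈ T, (univ.filter (fun a : ι → ZMod Q => bad a t)).card ≤
        T.card * (3 * μ * Q ^ Fintype.card ι) := by
      rw [mul_sum]
      calc _ ≤ ∑ t ∈ T, 3 * μ * Q ^ Fintype.card ι := sum_le_sum hbad
        _ = _ := by rw [sum_const, smul_eq_mul]
    have hQ0 : 0 < Q := hQ.out.pos
    have h5 : Q * (Q ^ Fintype.card ι * T.card) <
        Q * (2 * ∑ t ∈ T, (univ.filter (fun a : ι → ZMod Q => bad a t)).card) :=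
      Nat.mul_lt_mul_of_pos_left h2 hQ0
    have h6 : Q * (2 * ∑ t ∈ T, (univ.filter (fun a : ι → ZMod Q => bad a t)).card) ≤
        2 * (T.card * (3 * μ * Q ^ Fintype.card ι)) := by
      calc _ = 2 * (Q * ∑ t ∈ T, (univ.filter (fun a : ι → ZMod Q => bad a t)).card) := by ring
        _ ≤ _ := Nat.mul_le_mul_left _ h4
    have h7 : 2 * (T.card * (3 * μ * Q ^ Fintype.card ι)) =
        6 * μ * (Q ^ Fintype.card ι * T.card) := by ring
    rw [h7] at h6
    have h8 : 6 * μ * (Q ^ Fintype.card ι * T.card) ≤ Q * (Q ^ Fintype.card ι * T.card) :=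
      Nat.mul_le_mul_right _ hQμ
    omega
  obtain ⟨a, ha⟩ := hex
  set G := T.filter (fun t => ¬ bad a t) with hG
  -- pigeonhole over the two hash values
  obtain ⟨s, _, hs⟩ : ∃ s ∈ (univ : Finset (ZMod Q × ZMod Q)),
      G.card ≤ Q ^ 2 * (G.filter (fun t => (dot a t.1, dot a t.2) = s)).card := by
    by_contra hcon
    push Not at hcon
    have h1 : G.card = ∑ s : ZMod Q × ZMod Q,
        (G.filter (fun t => (dot a t.1, dot a t.2) = s)).card :=
      card_eq_sum_card_fiberwise fun _ _ => mem_coe.2 (mem_univ _)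
    have h2 : ∑ s : ZMod Q × ZMod Q,
        Q ^ 2 * (G.filter (fun t => (dot a t.1, dot a t.2) = s)).card <
        ∑ s : ZMod Q × ZMod Q, G.card :=
      sum_lt_sum_of_nonempty univ_nonempty hcon
    rw [← mul_sum, ← h1, sum_const, card_univ, Fintype.card_prod, ZMod.card, smul_eq_mul] at h2
    rw [pow_two] at h2
    exact lt_irrefl _ h2
  set H := G.filter (fun t => (dot a t.1, dot a t.2) = s) with hH
  have hmem : ∀ t ∈ H, t ∈ T ∧ ¬ bad a t ∧ dot a t.1 = s.1 ∧ dot a t.2 = s.2 := by
    intro t ht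
    rw [hH, mem_filter, hG, mem_filter] at ht
    refine ⟨ht.1.1, ht.1.2, ?_, ?_⟩
    · exact congrArg Prod.fst ht.2
    · exact congrArg Prod.snd ht.2
  -- vectors without aliases
  have uniq : ∀ u ∈ B, ∀ u' ∈ B, ¬ al a u → red m u' = red m u → dot a u' = dot a u → u' = u := by
    intro u _ u' hu' hn hr hd
    by_contra hne
    exact hn ⟨u', hu', hne, hr, hd⟩
  let f : (ι → ℤ) × (ι → ℤ) → (ι → ZMod m) × (ι → ZMod m) := fun t => (red m t.1, red m t.2)
  have hf : Set.InjOn f H := by
    intro t ht t' ht' h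
    rw [mem_coe] at ht ht'
    obtain ⟨k1, k2, k3, k4⟩ := hmem t ht
    obtain ⟨l1, l2, l3, l4⟩ := hmem t' ht'
    simp only [f, Prod.mk.injEq] at h
    have e1 := uniq t'.1 (hT t' l1).1 t.1 (hT t k1).1 (fun hh => l2 (Or.inl hh)) h.1
      (by rw [k3, l3])
    have e2 := uniq t'.2 (hT t' l1).2.1 t.2 (hT t k1).2.1 (fun hh => l2 (Or.inr (Or.inl hh))) h.2
      (by rw [k4, l4])
    exact Prod.ext e1 e2
  refine ⟨H.image f, ?_, ?_⟩
  · intro x y z h1 h2 h3
    obtain ⟨t, ht, e⟩ := mem_image.1 h1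
    obtain ⟨t', ht', e'⟩ := mem_image.1 h2
    obtain ⟨t'', ht'', e''⟩ := mem_image.1 h3
    obtain ⟨k1, k2, k3, k4⟩ := hmem t ht
    obtain ⟨l1, l2, l3, l4⟩ := hmem t' ht'
    obtain ⟨n1, n2, n3, n4⟩ := hmem t'' ht''
    simp only [f, Prod.mk.injEq] at e e' e''
    have q1 : t'.1 = t.1 := uniq t.1 (hT t k1).1 t'.1 (hT t' l1).1 (fun hh => k2 (Or.inl hh))
      (by rw [e'.1, e.1]) (by rw [k3, l3])
    have q2 : t''.2 = t.2 := uniq t.2 (hT t k1).2.1 t''.2 (hT t'' n1).2.1
      (fun hh => k2 (Or.inr (Or.inl hh))) (by rw [e''.2, e.2]) (by rw [k4, n4])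
    have q3 : t''.1 + t''.2 = t'.1 + t'.2 := by
      apply uniq (t'.1 + t'.2) (hT t' l1).2.2 (t''.1 + t''.2) (hT t'' n1).2.2
        (fun hh => l2 (Or.inr (Or.inr hh)))
      · rw [red_add, red_add, e''.1, e''.2, e'.1, e'.2]
        abel
      · rw [dot_add, dot_add, l3, l4, n3, n4]
    -- write `d = t'.2 - t.2`
    set d := t'.2 - t.2 with hd
    have w1 : t'.2 = t.2 + d := by rw [hd]; abel
    have w2 : t''.1 = t.1 + d := by
      rw [q2, q1, w1] at q3
      have : t''.1 = t.1 + (t.2 + d) - t.2 := by rw [← q3]; abel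
      rw [this]; abel
    have hd0 : d = 0 := by
      apply rigid t.1 t.2 d R
      · exact (hB _ (hT t k1).1).2
      · exact (hB _ (hT t k1).2.1).2
      · exact (hB _ (hT t k1).2.2).2
      · rw [← w1]; exact (hB _ (hT t' l1).2.1).2
      · rw [← w2]; exact (hB _ (hT t'' n1).1).2
      · have := (hB _ (hT t' l1).2.2).2
        rw [q1, w1] at this
        rw [← this]
        congr 1
        abel
    have h5 : y + z = y := by
      rw [← e'.2, w1, hd0, add_zero, e.2]
    exact left_eq_add.1 h5.symm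
  · rw [card_image_of_injOn hf]
    calc T.card ≤ 2 * G.card := ha
      _ ≤ 2 * (Q ^ 2 * H.card) := Nat.mul_le_mul_left _ hs
      _ = 2 * Q ^ 2 * H.card := by ring

end Pool.Agent.N68.Corner
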