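import Pool.Agent.N68.Corner.Theta
import Pool.Agent.N68.Corner.Hash

/-!
Counting pairs of integer vectors of equal lengths.
-/

set_option autoImplicit false
set_option linter.unusedSectionVars false

namespace Pool.Agent.N68.Corner

open Finset

/-- words of letters -/
noncomputable def W (L n : ℕ) : Finset (Fin n → ℤ × ℤ) := Fintype.piFinset fun _ => D L

/-- squared lengths of the three vectors of a word -/
def N1 {n : ℕ} (w : Fin n → ℤ × ℤ) : ℤ := ∑ i, (w i).1 ^ 2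
/-- squared lengths of the three vectors of a word -/
def N2 {n : ℕ} (w : Fin n → ℤ × ℤ) : ℤ := ∑ i, (w i).2 ^ 2
/-- squared lengths of the three vectors of a word -/
def N3 {n : ℕ} (w : Fin n → ℤ × ℤ) : ℤ := ∑ i, ((w i).1 + (w i).2) ^ 2

lemma prod_wt (β : ℝ) {n : ℕ} (w : Fin n → ℤ × ℤ) :
    ∏ i, wt β (w i) = Real.exp (-(β * ((N1 w : ℝ) + N2 w + N3 w))) := by
  unfold wt N1 N2 N3
  rw [← Real.exp_sum]
  congr 1
  push_cast
  rw [← sum_add_distrib, ← sum_add_distrib, mul_sum, ← sum_neg_distrib]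

lemma sq_le {L : ℕ} {a : ℤ} (h : |a| ≤ L) : 0 ≤ a ^ 2 ∧ a ^ 2 ≤ (L : ℤ) ^ 2 := by
  refine ⟨sq_nonneg a, ?_⟩
  exact sq_le_sq.2 (by rwa [Nat.abs_cast])

lemma N_bound {L n : ℕ} {w : Fin n → ℤ × ℤ} (hw : w ∈ W L n) :
    (0 ≤ N1 w ∧ N1 w ≤ L ^ 2 * n) ∧ (0 ≤ N2 w ∧ N2 w ≤ L ^ 2 * n) ∧
      (0 ≤ N3 w ∧ N3 w ≤ L ^ 2 * n) := by
  have h : ∀ i, w i ∈ D L := fun i => Fintype.mem_piFinset.1 hw i
  have key : ∀ f : Fin n → ℤ, (∀ i, |f i| ≤ L) → 0 ≤ ∑ i, f i ^ 2 ∧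
      ∑ i, f i ^ 2 ≤ (L : ℤ) ^ 2 * n := by
    intro f hf
    refine ⟨sum_nonneg fun i _ => (sq_le (hf i)).1, ?_⟩
    calc ∑ i, f i ^ 2 ≤ ∑ _i : Fin n, (L : ℤ) ^ 2 := sum_le_sum fun i _ => (sq_le (hf i)).2
      _ = (L : ℤ) ^ 2 * n := by
        rw [sum_const, card_univ, Fintype.card_fin, nsmul_eq_mul, mul_comm]
  exact ⟨key _ fun i => (mem_D.1 (h i)).1, key _ fun i => (mem_D.1 (h i)).2.1,
    key _ fun i => (mem_D.1 (h i)).2.2⟩

/-- words with given lengths -/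
noncomputable def Wr (L n : ℕ) (r : ℕ × ℕ × ℕ) : Finset (Fin n → ℤ × ℤ) :=
  (W L n).filter (fun w => N1 w = r.1 ∧ N2 w = r.2.1 ∧ N3 w = r.2.2)

/-- pigeonhole for the lengths -/
lemma exists_r (β : ℝ) (L n : ℕ) : ∃ r : ℕ × ℕ × ℕ,
    theta β L ^ n ≤ ((L : ℝ) ^ 2 * n + 1) ^ 3 *
      ((Wr L n r).card * Real.exp (-(β * ((r.1 : ℝ) + r.2.1 + r.2.2)))) := by
  classical
  set M := L ^ 2 * n + 1 with hM
  set 𝓡 : Finset (ℕ × ℕ × ℕ) := range M ×ˢ (range M ×ˢ range M) with h𝓡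
  have htot : ∑ w ∈ W L n, ∏ i, wt β (w i) = theta β L ^ n := by
    unfold W theta
    rw [← Finset.prod_univ_sum, prod_const, card_univ, Fintype.card_fin]
  let ν : (Fin n → ℤ × ℤ) → ℕ × ℕ × ℕ := fun w => ((N1 w).toNat, (N2 w).toNat, (N3 w).toNat)
  have hν : ∀ w ∈ W L n, ν w ∈ 𝓡 := by
    intro w hw
    obtain ⟨h1, h2, h3⟩ := N_bound hw
    simp only [ν, h𝓡, mem_product, mem_range, hM]
    have e : ((L ^ 2 * n : ℕ) : ℤ) = (L : ℤ) ^ 2 * n := by push_cast; ring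
    rw [← e] at h1 h2 h3
    refine ⟨by omega, by omega, by omega⟩
  have hfib := sum_fiberwise_of_maps_to hν (fun w => ∏ i, wt β (w i))
  rw [htot] at hfib
  have hcard : (𝓡.card : ℝ) = ((L : ℝ) ^ 2 * n + 1) ^ 3 := by
    rw [h𝓡, card_product, card_product, card_range, hM]
    push_cast
    ring
  have hpos : (0 : ℝ) < ((L : ℝ) ^ 2 * n + 1) ^ 3 := by positivity
  have hne : 𝓡.Nonempty := by
    rw [← card_pos]
    rw [← hcard] at hpos
    exact_mod_cast hpos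
  obtain ⟨r, _, hr⟩ := exists_le_of_sum_le hne (f := fun _ => theta β L ^ n / 𝓡.card)
    (g := fun r => ∑ w ∈ (W L n).filter (fun w => ν w = r), ∏ i, wt β (w i)) (by
      rw [sum_const, nsmul_eq_mul, hfib, mul_div_cancel₀]
      rw [hcard]
      exact hpos.ne')
  refine ⟨r, ?_⟩
  have h1 : (W L n).filter (fun w => ν w = r) = Wr L n r := by
    unfold Wr
    apply filter_congr
    intro w hw
    obtain ⟨h1, h2, h3⟩ := N_bound hw
    simp only [ν, Prod.ext_iff]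
    constructor
    · rintro ⟨e1, e2, e3⟩
      refine ⟨?_, ?_, ?_⟩
      · rw [← e1]; omega
      · rw [← e2]; omega
      · rw [← e3]; omega
    · rintro ⟨e1, e2, e3⟩
      refine ⟨?_, ?_, ?_⟩
      · rw [e1]; simp
      · rw [e2]; simp
      · rw [e3]; simp
  rw [h1] at hr
  have h2 : ∑ w ∈ Wr L n r, ∏ i, wt β (w i) =
      (Wr L n r).card * Real.exp (-(β * ((r.1 : ℝ) + r.2.1 + r.2.2))) := by
    rw [← nsmul_eq_mul, ← sum_const]
    apply sum_congr rfl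
    intro w hw
    obtain ⟨_, e1, e2, e3⟩ := mem_filter.1 hw
    rw [prod_wt, e1, e2, e3]
    norm_cast
  rw [h2, hcard, div_le_iff₀ hpos] at hr
  linarith

/-- the first vector -/
def mkU {n : ℕ} (q : (Fin n → ℤ × ℤ) × (Fin n → ℤ × ℤ) × (Fin n → ℤ × ℤ)) :
    Fin 3 × Fin n → ℤ :=
  fun p => ![(q.1 p.2).1, (q.2.1 p.2).2, -((q.2.2 p.2).1 + (q.2.2 p.2).2)] p.1

/-- the second vector -/
def mkV {n : ℕ} (q : (Fin n → ℤ × ℤ) × (Fin n → ℤ × ℤ) × (Fin n → ℤ × ℤ)) :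
    Fin 3 × Fin n → ℤ :=
  fun p => ![(q.1 p.2).2, -((q.2.1 p.2).1 + (q.2.1 p.2).2), (q.2.2 p.2).1] p.1

lemma mk_inj {n : ℕ} {q q' : (Fin n → ℤ × ℤ) × (Fin n → ℤ × ℤ) × (Fin n → ℤ × ℤ)}
    (h1 : mkU q = mkU q') (h2 : mkV q = mkV q') : q = q' := by
  have a0 : ∀ i, (q.1 i).1 = (q'.1 i).1 := fun i => congrFun h1 (0, i)
  have a1 : ∀ i, (q.2.1 i).2 = (q'.2.1 i).2 := fun i => congrFun h1 (1, i)
  have a2 : ∀ i, -((q.2.2 i).1 + (q.2.2 i).2) = -((q'.2.2 i).1 + (q'.2.2 i).2) :=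
    fun i => congrFun h1 (2, i)
  have b0 : ∀ i, (q.1 i).2 = (q'.1 i).2 := fun i => congrFun h2 (0, i)
  have b1 : ∀ i, -((q.2.1 i).1 + (q.2.1 i).2) = -((q'.2.1 i).1 + (q'.2.1 i).2) :=
    fun i => congrFun h2 (1, i)
  have b2 : ∀ i, (q.2.2 i).1 = (q'.2.2 i).1 := fun i => congrFun h2 (2, i)
  refine Prod.ext ?_ (Prod.ext ?_ ?_)
  · funext i
    exact Prod.ext (a0 i) (b0 i)
  · funext i
    have := b1 i
    have := a1 i
    exact Prod.ext (by linarith) (a1 i)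
  · funext i
    have := a2 i
    have := b2 i
    exact Prod.ext (b2 i) (by linarith)

lemma nrm_mkU {n : ℕ} (q : (Fin n → ℤ × ℤ) × (Fin n → ℤ × ℤ) × (Fin n → ℤ × ℤ)) :
    nrm (mkU q) = N1 q.1 + N2 q.2.1 + N3 q.2.2 := by
  unfold nrm mkU N1 N2 N3
  rw [Fintype.sum_prod_type, Fin.sum_univ_three]
  congr 1
  apply sum_congr rfl
  intro i _
  show (-((q.2.2 i).1 + (q.2.2 i).2)) ^ 2 = _
  rw [neg_sq]

lemma nrm_mkV {n : ℕ} (q : (Fin n → ℤ × ℤ) × (Fin n → ℤ × ℤ) × (Fin n → ℤ × ℤ)) :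
    nrm (mkV q) = N2 q.1 + N3 q.2.1 + N1 q.2.2 := by
  unfold nrm mkV N1 N2 N3
  rw [Fintype.sum_prod_type, Fin.sum_univ_three]
  congr 2
  apply sum_congr rfl
  intro i _
  show (-((q.2.1 i).1 + (q.2.1 i).2)) ^ 2 = _
  rw [neg_sq]

lemma nrm_mkUV {n : ℕ} (q : (Fin n → ℤ × ℤ) × (Fin n → ℤ × ℤ) × (Fin n → ℤ × ℤ)) :
    nrm (mkU q + mkV q) = N3 q.1 + N1 q.2.1 + N2 q.2.2 := by
  unfold nrm mkU mkV N1 N2 N3
  rw [Fintype.sum_prod_type, Fin.sum_univ_three]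
  congr 2
  · apply sum_congr rfl
    intro i _
    show ((q.2.1 i).2 + -((q.2.1 i).1 + (q.2.1 i).2)) ^ 2 = _
    ring
  · funext i
    show (-((q.2.2 i).1 + (q.2.2 i).2) + (q.2.2 i).1) ^ 2 = _
    ring

/-- the integer vectors of bounded entries and given length -/
noncomputable def Bset (L n : ℕ) (R : ℤ) : Finset (Fin 3 × Fin n → ℤ) :=
  (Fintype.piFinset fun _ => Icc (-(L : ℤ)) L).filter (fun u => nrm u = R)

lemma mem_Bset {L n : ℕ} {R : ℤ} {u : Fin 3 × Fin n → ℤ} :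
    u ∈ Bset L n R ↔ (∀ p, |u p| ≤ L) ∧ nrm u = R := by
  unfold Bset
  rw [mem_filter, Fintype.mem_piFinset]
  simp only [mem_Icc, abs_le]

lemma class_count {κ : ℝ} (hκ : 0 < κ) (m : ℕ) [NeZero m] (L n : ℕ) (R : ℤ)
    (x : Fin 3 × Fin n → ZMod m) :
    (((Bset L n R).filter (fun u => red m u = x)).card : ℝ) ≤
      Real.exp (κ * R) * (2 + Real.sqrt (Real.pi / κ) / m) ^ (3 * n) := by
  classical
  set P : Finset (Fin 3 × Fin n → ℤ) := Fintype.piFinset fun p =>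
    (Icc (-(L : ℤ)) L).filter (fun c : ℤ => (c : ZMod m) = x p) with hP
  have hsub : (Bset L n R).filter (fun u => red m u = x) ⊆ P := by
    intro u hu
    obtain ⟨h1, h2⟩ := mem_filter.1 hu
    rw [hP, Fintype.mem_piFinset]
    intro p
    rw [mem_filter, mem_Icc]
    refine ⟨abs_le.1 ((mem_Bset.1 h1).1 p), ?_⟩
    exact congrFun h2 p
  have h1 : ∑ u ∈ P, ∏ p, g κ (u p) ≤ (2 + Real.sqrt (Real.pi / κ) / m) ^ (3 * n) := by
    rw [hP, ← Finset.prod_univ_sum (f := fun _ (c : ℤ) => g κ c)]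
    calc ∏ p : Fin 3 × Fin n, ∑ c ∈ (Icc (-(L : ℤ)) L).filter
          (fun c : ℤ => (c : ZMod m) = x p), g κ c
        ≤ ∏ _p : Fin 3 × Fin n, (2 + Real.sqrt (Real.pi / κ) / m) := by
          apply prod_le_prod
          · intro p _
            exact sum_nonneg fun c _ => (g_pos κ c).le
          · intro p _
            exact class_le hκ m L (x p)
      _ = (2 + Real.sqrt (Real.pi / κ) / m) ^ (3 * n) := by
          rw [prod_const, card_univ, Fintype.card_prod, Fintype.card_fin, Fintype.card_fin]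
  have h2 : (((Bset L n R).filter (fun u => red m u = x)).card : ℝ) * Real.exp (-(κ * R)) ≤
      ∑ u ∈ P, ∏ p, g κ (u p) := by
    calc (((Bset L n R).filter (fun u => red m u = x)).card : ℝ) * Real.exp (-(κ * R))
        = ∑ u ∈ (Bset L n R).filter (fun u => red m u = x), ∏ p, g κ (u p) := by
          rw [← nsmul_eq_mul, ← sum_const]
          apply sum_congr rfl
          intro u hu
          have h3 := (mem_Bset.1 (mem_filter.1 hu).1).2
          unfold g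
          rw [← Real.exp_sum, sum_neg_distrib, ← mul_sum]
          congr 3
          rw [← h3]
          unfold nrm
          push_cast
          rfl
      _ ≤ ∑ u ∈ P, ∏ p, g κ (u p) := by
          apply sum_le_sum_of_subset_of_nonneg hsub
          intro u _ _
          exact prod_nonneg fun p _ => (g_pos κ _).le
  have h3 := h2.trans h1
  have h4 : Real.exp (κ * R) * Real.exp (-(κ * R)) = 1 := by
    rw [← Real.exp_add, add_neg_cancel, Real.exp_zero]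
  calc (((Bset L n R).filter (fun u => red m u = x)).card : ℝ)
      = Real.exp (κ * R) * ((((Bset L n R).filter (fun u => red m u = x)).card : ℝ) *
        Real.exp (-(κ * R))) := by
        rw [mul_comm (((Bset L n R).filter (fun u => red m u = x)).card : ℝ), ← mul_assoc, h4,
          one_mul]
    _ ≤ _ := mul_le_mul_of_nonneg_left h3 (Real.exp_pos _).le

/-- The finite form of the theorem. -/
theorem main_finite (m : ℕ) [NeZero m] {β : ℝ} (hβ : 0 < β) (L n : ℕ) :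
    ∃ A : Finset ((Fin 3 × Fin n → ZMod m) × (Fin 3 × Fin n → ZMod m)), CornerFree A ∧
      theta β L ^ (3 * n) ≤ 2 * (4 * (L : ℝ) + 14) ^ 2 * ((L : ℝ) ^ 2 * n + 1) ^ 9 *
        (2 + Real.sqrt (Real.pi / (3 * β / 2)) / m) ^ (6 * n) * A.card := by
  classical
  obtain ⟨r, hr⟩ := exists_r β L n
  set κ := 3 * β / 2 with hκ
  have hκ0 : 0 < κ := by rw [hκ]; positivity
  set R : ℤ := (r.1 : ℤ) + r.2.1 + r.2.2 with hR
  set Θ := 2 + Real.sqrt (Real.pi / κ) / m with hΘ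
  have hΘ1 : 1 ≤ Θ := by
    rw [hΘ]
    have : 0 ≤ Real.sqrt (Real.pi / κ) / m := by positivity
    linarith
  have hR0 : (0 : ℝ) ≤ (R : ℝ) := by
    rw [hR]; push_cast; positivity
  set E := Real.exp (κ * R) * Θ ^ (3 * n) with hE
  have hE1 : 1 ≤ E := by
    rw [hE]
    have h1 : 1 ≤ Real.exp (κ * R) := Real.one_le_exp (by positivity)
    have h2 : 1 ≤ Θ ^ (3 * n) := one_le_pow₀ hΘ1
    calc (1 : ℝ) = 1 * 1 := by ring
      _ ≤ _ := mul_le_mul h1 h2 zero_le_one (by linarith)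
  set μ := ⌊E⌋₊ with hμ
  have hμE : (μ : ℝ) ≤ E := Nat.floor_le (by linarith)
  obtain ⟨Q, hQp, hQ1, hQ2⟩ := Nat.exists_prime_lt_and_le_two_mul (6 * μ + 2 * L + 1) (by omega)
  have : Fact Q.Prime := ⟨hQp⟩
  set T : Finset ((Fin 3 × Fin n → ℤ) × (Fin 3 × Fin n → ℤ)) :=
    (Wr L n r ×ˢ (Wr L n r ×ˢ Wr L n r)).image (fun q => (mkU q, mkV q)) with hT
  have hTcard : T.card = (Wr L n r).card ^ 3 := by
    rw [hT, card_image_of_injective]
    · rw [card_product, card_product]; ring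
    · intro q q' h
      simp only [Prod.mk.injEq] at h
      exact mk_inj h.1 h.2
  have hTB : ∀ t ∈ T, t.1 ∈ Bset L n R ∧ t.2 ∈ Bset L n R ∧ t.1 + t.2 ∈ Bset L n R := by
    intro t ht
    obtain ⟨q, hq, rfl⟩ := mem_image.1 ht
    obtain ⟨hq1, hq2⟩ := mem_product.1 hq
    obtain ⟨hq2, hq3⟩ := mem_product.1 hq2
    obtain ⟨hq1, a1, a2, a3⟩ := mem_filter.1 hq1
    obtain ⟨hq2, b1, b2, b3⟩ := mem_filter.1 hq2
    obtain ⟨hq3, c1, c2, c3⟩ := mem_filter.1 hq3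
    have d1 : ∀ i, q.1 i ∈ D L := fun i => Fintype.mem_piFinset.1 hq1 i
    have d2 : ∀ i, q.2.1 i ∈ D L := fun i => Fintype.mem_piFinset.1 hq2 i
    have d3 : ∀ i, q.2.2 i ∈ D L := fun i => Fintype.mem_piFinset.1 hq3 i
    refine ⟨mem_Bset.2 ⟨?_, ?_⟩, mem_Bset.2 ⟨?_, ?_⟩, mem_Bset.2 ⟨?_, ?_⟩⟩
    · rintro ⟨j, i⟩
      fin_cases j
      · exact (mem_D.1 (d1 i)).1
      · exact (mem_D.1 (d2 i)).2.1
      · show |-((q.2.2 i).1 + (q.2.2 i).2)| ≤ L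
        rw [abs_neg]
        exact (mem_D.1 (d3 i)).2.2
    · rw [nrm_mkU, a1, b2, c3]
    · rintro ⟨j, i⟩
      fin_cases j
      · exact (mem_D.1 (d1 i)).2.1
      · show |-((q.2.1 i).1 + (q.2.1 i).2)| ≤ L
        rw [abs_neg]
        exact (mem_D.1 (d2 i)).2.2
      · exact (mem_D.1 (d3 i)).1
    · rw [nrm_mkV, a2, b3, c1, hR]
      ring
    · rintro ⟨j, i⟩
      fin_cases j
      · exact (mem_D.1 (d1 i)).2.2
      · show |(q.2.1 i).2 + -((q.2.1 i).1 + (q.2.1 i).2)| ≤ L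
        have e : (q.2.1 i).2 + -((q.2.1 i).1 + (q.2.1 i).2) = -(q.2.1 i).1 := by ring
        rw [e, abs_neg]
        exact (mem_D.1 (d2 i)).1
      · show |-((q.2.2 i).1 + (q.2.2 i).2) + (q.2.2 i).1| ≤ L
        have e : -((q.2.2 i).1 + (q.2.2 i).2) + (q.2.2 i).1 = -(q.2.2 i).2 := by ring
        rw [e, abs_neg]
        exact (mem_D.1 (d3 i)).2.1
    · rw [nrm_mkUV, a3, b1, c2, hR]
      ring
  obtain ⟨A, hA, hAT⟩ := hash m L μ Q (by omega) (by omega) R (Bset L n R)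
    (fun u hu => mem_Bset.1 hu) (fun x => Nat.le_floor (class_count hκ0 m L n R x)) T hTB
  refine ⟨A, hA, ?_⟩
  rw [hTcard] at hAT
  have hAT' : ((Wr L n r).card : ℝ) ^ 3 ≤ 2 * (Q : ℝ) ^ 2 * A.card := by exact_mod_cast hAT
  -- size of `Q`
  have hQE : (Q : ℝ) ≤ (4 * (L : ℝ) + 14) * E := by
    have h1 : (Q : ℝ) ≤ 2 * (6 * (μ : ℝ) + 2 * L + 1) := by exact_mod_cast hQ2
    have h2 : (0 : ℝ) ≤ L := by positivity
    nlinarith
  have hexp : Real.exp (-(β * ((r.1 : ℝ) + r.2.1 + r.2.2))) = Real.exp (-(β * (R : ℝ))) := by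
    rw [hR]; push_cast; rfl
  rw [hexp] at hr
  set c : ℝ := ((Wr L n r).card : ℝ) with hc
  have hθ0 : 0 ≤ theta β L := sum_nonneg fun p _ => (wt_pos β p).le
  have h1 : theta β L ^ (3 * n) ≤ (((L : ℝ) ^ 2 * n + 1) ^ 3 * (c * Real.exp (-(β * (R : ℝ))))) ^ 3 := by
    rw [mul_comm 3 n, pow_mul]
    exact pow_le_pow_left₀ (pow_nonneg hθ0 n) hr 3
  have h2 : E ^ 2 = Real.exp (3 * (β * (R : ℝ))) * Θ ^ (6 * n) := by
    rw [hE, mul_pow, ← Real.exp_nat_mul, ← pow_mul]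
    congr 1
    · congr 1
      rw [hκ]; push_cast; ring
    · congr 1; ring
  have h3 : Real.exp (-(β * (R : ℝ))) ^ 3 * Real.exp (3 * (β * (R : ℝ))) = 1 := by
    rw [← Real.exp_nat_mul, ← Real.exp_add]
    have : (((3 : ℕ) : ℝ)) * -(β * (R : ℝ)) + 3 * (β * (R : ℝ)) = 0 := by push_cast; ring
    rw [this, Real.exp_zero]
  calc theta β L ^ (3 * n)
      ≤ (((L : ℝ) ^ 2 * n + 1) ^ 3 * (c * Real.exp (-(β * (R : ℝ))))) ^ 3 := h1
    _ = ((L : ℝ) ^ 2 * n + 1) ^ 9 * Real.exp (-(β * (R : ℝ))) ^ 3 * c ^ 3 := by ring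
    _ ≤ ((L : ℝ) ^ 2 * n + 1) ^ 9 * Real.exp (-(β * (R : ℝ))) ^ 3 *
          (2 * ((4 * (L : ℝ) + 14) * E) ^ 2 * A.card) := by
        apply mul_le_mul_of_nonneg_left _ (by positivity)
        refine hAT'.trans ?_
        apply mul_le_mul_of_nonneg_right _ (Nat.cast_nonneg _)
        apply mul_le_mul_of_nonneg_left _ (by norm_num)
        exact pow_le_pow_left₀ (Nat.cast_nonneg _) hQE 2
    _ = 2 * (4 * (L : ℝ) + 14) ^ 2 * ((L : ℝ) ^ 2 * n + 1) ^ 9 *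
          (Real.exp (-(β * (R : ℝ))) ^ 3 * E ^ 2) * A.card := by ring
    _ = 2 * (4 * (L : ℝ) + 14) ^ 2 * ((L : ℝ) ^ 2 * n + 1) ^ 9 * Θ ^ (6 * n) * A.card := by
        rw [h2, ← mul_assoc (Real.exp (-(β * (R : ℝ))) ^ 3), h3, one_mul]

end Pool.Agent.N68.Corner
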