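import Pool.Agent.N68.Corner.Limit

/-!
Coverings by few corner-free sets.
-/

set_option autoImplicit false
set_option linter.unusedSectionVars false

namespace Pool.Agent.N68.Corner

open Finset Filter Topology

/-- covering a group by translates of a set -/
lemma cover {H : Type*} [AddCommGroup H] [Fintype H] [DecidableEq H] (A : Finset H) (k : ℕ)
    (hk : Fintype.card H * (Fintype.card H - A.card) ^ k < Fintype.card H ^ k) :
    ∃ t : Fin k → H, ∀ h, ∃ i, h - t i ∈ A := by
  classical
  by_contra hcon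
  push Not at hcon
  have h1 : (univ : Finset (Fin k → H)) ⊆ (univ : Finset H).biUnion
      (fun h => Fintype.piFinset fun _ : Fin k => univ.filter fun t => h - t ∉ A) := by
    intro t _
    obtain ⟨h, hh⟩ := hcon t
    rw [mem_biUnion]
    refine ⟨h, mem_univ _, ?_⟩
    rw [Fintype.mem_piFinset]
    intro i
    rw [mem_filter]
    exact ⟨mem_univ _, hh i⟩
  have h2 := (card_le_card h1).trans card_biUnion_le
  have h3 : ∀ h : H, (univ.filter fun t => h - t ∉ A).card = Fintype.card H - A.card := by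
    intro h
    have e1 : (univ.filter fun t => h - t ∈ A).card = A.card := by
      apply card_bij (fun t _ => h - t)
      · intro t ht
        exact (mem_filter.1 ht).2
      · intro t _ t' _ e
        exact sub_right_injective e
      · intro b hb
        exact ⟨h - b, by rw [mem_filter]; exact ⟨mem_univ _, by rwa [sub_sub_cancel]⟩,
          sub_sub_cancel _ _⟩
    have e2 := card_filter_add_card_filter_not (s := (univ : Finset H)) (fun t => h - t ∈ A)
    rw [e1, card_univ] at e2
    omega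
  simp only [Fintype.card_piFinset, h3, prod_const, card_univ, Fintype.card_fin, sum_const,
    smul_eq_mul, Fintype.card_fun] at h2
  exact absurd h2 (not_le.2 hk)

/-- translates of corner-free sets are corner-free -/
lemma CornerFree.translate {G : Type*} [AddCommGroup G] [DecidableEq G] {A : Finset (G × G)}
    (hA : CornerFree A) (t : G × G) : CornerFree (A.image (fun p => p + t)) := by
  have key : ∀ x y : G, (x, y) ∈ A.image (fun p => p + t) → (x - t.1, y - t.2) ∈ A := by
    intro x y h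
    obtain ⟨p, hp, e⟩ := mem_image.1 h
    have e1 : p.1 + t.1 = x := congrArg Prod.fst e
    have e2 : p.2 + t.2 = y := congrArg Prod.snd e
    rw [← e1, ← e2, add_sub_cancel_right, add_sub_cancel_right]
    exact hp
  intro x y z h1 h2 h3
  refine hA (x - t.1) (y - t.2) z (key _ _ h1) ?_ ?_
  · have := key _ _ h2
    rwa [add_sub_right_comm] at this
  · have := key _ _ h3
    rwa [add_sub_right_comm] at this

/-- covering a group by few translates of a set -/
lemma cover_real {H : Type*} [AddCommGroup H] [Fintype H] [DecidableEq H] (A : Finset H)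
    (hA : 0 < A.card) : ∃ (k : ℕ) (t : Fin k → H), (∀ h, ∃ i, h - t i ∈ A) ∧
      (k : ℝ) ≤ Real.log (Fintype.card H) * (Fintype.card H / A.card) + 1 := by
  have hA0 : (0 : ℝ) < A.card := by exact_mod_cast hA
  have hle : A.card ≤ Fintype.card H := card_le_univ A
  have hAH : (A.card : ℝ) ≤ Fintype.card H := by exact_mod_cast hle
  have hH0 : (0 : ℝ) < Fintype.card H := by linarith
  have hH1 : (1 : ℝ) ≤ Fintype.card H := by
    have : 1 ≤ Fintype.card H := by omega
    exact_mod_cast this
  set ρ : ℝ := (A.card : ℝ) / Fintype.card H with hρ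
  have hρ0 : 0 < ρ := by positivity
  have hρ1 : ρ ≤ 1 := by rw [hρ, div_le_one hH0]; exact hAH
  set ℓ : ℝ := Real.log (Fintype.card H) with hℓ
  have hℓ0 : 0 ≤ ℓ := Real.log_nonneg hH1
  set k : ℕ := ⌊ℓ / ρ⌋₊ + 1 with hk
  have hk1 : ℓ / ρ < k := by
    rw [hk]
    push_cast
    exact Nat.lt_floor_add_one _
  have hk2 : (k : ℝ) ≤ ℓ / ρ + 1 := by
    rw [hk]
    push_cast
    have : (⌊ℓ / ρ⌋₊ : ℝ) ≤ ℓ / ρ := Nat.floor_le (by positivity)
    linarith
  have hcov : Fintype.card H * (Fintype.card H - A.card) ^ k < Fintype.card H ^ k := by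
    have : ((Fintype.card H : ℝ) * ((Fintype.card H : ℝ) - A.card) ^ k) <
        (Fintype.card H : ℝ) ^ k := by
      have e1 : (Fintype.card H : ℝ) - A.card = Fintype.card H * (1 - ρ) := by
        rw [hρ]
        field_simp
      have e2 : 1 - ρ ≤ Real.exp (-ρ) := by
        have := Real.add_one_le_exp (-ρ)
        linarith
      have e3 : (1 - ρ) ^ k ≤ Real.exp (-(ρ * k)) := by
        calc (1 - ρ) ^ k ≤ Real.exp (-ρ) ^ k := pow_le_pow_left₀ (by linarith) e2 k
          _ = Real.exp (-(ρ * k)) := by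
            rw [← Real.exp_nat_mul]
            congr 1
            ring
      have e4 : Real.exp (-(ρ * k)) < Real.exp (-ℓ) := by
        apply Real.exp_lt_exp.2
        rw [div_lt_iff₀ hρ0] at hk1
        linarith
      have e5 : Real.exp (-ℓ) = (Fintype.card H : ℝ)⁻¹ := by
        rw [Real.exp_neg, hℓ, Real.exp_log hH0]
      rw [e1, mul_pow]
      have hHk : (0 : ℝ) < (Fintype.card H : ℝ) ^ k := by positivity
      calc (Fintype.card H : ℝ) * ((Fintype.card H : ℝ) ^ k * (1 - ρ) ^ k)
          = (Fintype.card H : ℝ) ^ k * ((Fintype.card H : ℝ) * (1 - ρ) ^ k) := by ring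
        _ < (Fintype.card H : ℝ) ^ k * 1 := by
          apply mul_lt_mul_of_pos_left _ hHk
          calc (Fintype.card H : ℝ) * (1 - ρ) ^ k
              ≤ (Fintype.card H : ℝ) * Real.exp (-(ρ * k)) :=
                mul_le_mul_of_nonneg_left e3 hH0.le
            _ < (Fintype.card H : ℝ) * Real.exp (-ℓ) := mul_lt_mul_of_pos_left e4 hH0
            _ = 1 := by rw [e5, mul_inv_cancel₀ hH0.ne']
        _ = _ := mul_one _
    have h2 : (((Fintype.card H - A.card : ℕ) : ℕ) : ℝ) = (Fintype.card H : ℝ) - A.card := by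
      rw [Nat.cast_sub hle]
    rw [← h2] at this
    exact_mod_cast this
  obtain ⟨t, ht⟩ := cover A k hcov
  refine ⟨k, t, ht, hk2.trans (le_of_eq ?_)⟩
  rw [hρ, div_div_eq_mul_div, mul_div_assoc]

/-- **Covering theorem.** For every `c > 2/√3` and all large `n` the group `((ℤ/m)^n)²` is a
union of at most `c^n` corner-free sets. -/
theorem exists_cover (m : ℕ) [NeZero m] (c : ℝ) (hc : 2 / Real.sqrt 3 < c) :
    ∃ n0 : ℕ, ∀ n, n0 ≤ n →
      ∃ 𝒜 : Finset (Finset ((Fin n → ZMod m) × (Fin n → ZMod m))),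
        (𝒜.card : ℝ) ≤ c ^ n ∧ (∀ A ∈ 𝒜, CornerFree A) ∧ ∀ p, ∃ A ∈ 𝒜, p ∈ A := by
  classical
  have hm1 : (1 : ℝ) ≤ m := by exact_mod_cast Nat.one_le_iff_ne_zero.2 (NeZero.ne m)
  have hm : (0 : ℝ) < m := by linarith
  have hs : 0 < Real.sqrt 3 := by positivity
  have hs2 : Real.sqrt 3 * Real.sqrt 3 = 3 := Real.mul_self_sqrt (by norm_num)
  have hc1 : 1 < 2 / Real.sqrt 3 := by
    rw [lt_div_iff₀ hs, one_mul, show (2 : ℝ) = Real.sqrt 4 by
      rw [show (4 : ℝ) = 2 ^ 2 by norm_num, Real.sqrt_sq (by norm_num)]]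
    exact Real.sqrt_lt_sqrt (by norm_num) (by norm_num)
  obtain ⟨b, hb1, hb2⟩ := exists_between hc
  have hb0 : 0 < b := by linarith
  have hc0 : 0 < c := by linarith
  -- the size of the corner-free set
  have ha : (m : ℝ) ^ 2 / b < Real.sqrt 3 / 2 * (m : ℝ) ^ 2 := by
    rw [div_lt_iff₀ hb0]
    have : 1 < Real.sqrt 3 / 2 * b := by
      rw [div_lt_iff₀ hs] at hb1
      linarith
    calc (m : ℝ) ^ 2 = (m : ℝ) ^ 2 * 1 := by ring
      _ < (m : ℝ) ^ 2 * (Real.sqrt 3 / 2 * b) := mul_lt_mul_of_pos_left this (by positivity)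
      _ = _ := by ring
  obtain ⟨n1, h1⟩ := exists_cornerFree m ((m : ℝ) ^ 2 / b) (by positivity) ha
  -- growth
  have hr : |b / c| < 1 := by
    rw [abs_of_nonneg (by positivity), div_lt_one hc0]
    exact hb2
  have hlim := tendsto_pow_const_mul_const_pow_of_abs_lt_one 1 hr
  set M : ℝ := 2 * Real.log m + 1 with hM
  have hlog : 0 ≤ Real.log m := Real.log_nonneg hm1
  have hM0 : 0 < M := by linarith
  have hev := hlim.eventually (gt_mem_nhds (show (0 : ℝ) < 1 / M by positivity))
  obtain ⟨n2, hn2⟩ := eventually_atTop.1 hev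
  refine ⟨max (max n1 n2) 1, fun n hn => ?_⟩
  obtain ⟨A, hA, hAc⟩ := h1 n ((le_max_left _ _).trans ((le_max_left _ _).trans hn))
  have hn2' := hn2 n ((le_max_right _ _).trans ((le_max_left _ _).trans hn))
  have hn' : 1 ≤ n := (le_max_right _ _).trans hn
  have hnR : (1 : ℝ) ≤ n := by exact_mod_cast hn'
  have hHc : (Fintype.card ((Fin n → ZMod m) × (Fin n → ZMod m)) : ℝ) = ((m : ℝ) ^ 2) ^ n := by
    rw [Fintype.card_prod, Fintype.card_fun, ZMod.card, Fintype.card_fin]
    push_cast
    ring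
  have hA0 : (0 : ℝ) < A.card := lt_of_lt_of_le (by positivity) hAc
  obtain ⟨k, t, ht, hk⟩ := cover_real A (by exact_mod_cast hA0)
  rw [hHc] at hk
  refine ⟨univ.image (fun i => A.image (fun p => p + t i)), ?_, ?_, ?_⟩
  · have h3 : ((univ.image (fun i => A.image (fun p => p + t i))).card : ℝ) ≤ k := by
      have := card_image_le (s := (univ : Finset (Fin k))) (f := fun i => A.image (fun p => p + t i))
      rw [card_univ, Fintype.card_fin] at this
      exact_mod_cast this
    refine h3.trans (hk.trans ?_)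
    have h4 : ((m : ℝ) ^ 2) ^ n / A.card ≤ b ^ n := by
      rw [div_le_iff₀ hA0]
      rw [div_pow, div_le_iff₀ (by positivity)] at hAc
      linarith
    have h5 : (1 : ℝ) ≤ b ^ n := one_le_pow₀ (by linarith)
    have h8 : Real.log (((m : ℝ) ^ 2) ^ n) = 2 * n * Real.log m := by
      rw [← pow_mul, Real.log_pow]
      push_cast
      ring
    rw [h8]
    have h6 : 2 * n * Real.log m * (((m : ℝ) ^ 2) ^ n / A.card) + 1 ≤ M * n * b ^ n := by
      have e1 : 2 * n * Real.log m * (((m : ℝ) ^ 2) ^ n / A.card) ≤ 2 * n * Real.log m * b ^ n :=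
        mul_le_mul_of_nonneg_left h4 (by positivity)
      have e2 : (1 : ℝ) ≤ n * b ^ n := by nlinarith
      calc _ ≤ 2 * n * Real.log m * b ^ n + n * b ^ n := by linarith
        _ = M * n * b ^ n := by rw [hM]; ring
    have h7 : M * n * b ^ n ≤ c ^ n := by
      have hcn : 0 < c ^ n := by positivity
      rw [pow_one, div_pow, lt_div_iff₀ hM0, ← mul_div_assoc, div_mul_eq_mul_div,
        div_lt_one hcn] at hn2'
      calc M * n * b ^ n = n * b ^ n * M := by ring
        _ ≤ c ^ n := hn2'.le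
    linarith
  · intro B hB
    obtain ⟨i, _, rfl⟩ := mem_image.1 hB
    exact hA.translate (t i)
  · intro p
    obtain ⟨i, hi⟩ := ht p
    exact ⟨_, mem_image.2 ⟨i, mem_univ _, rfl⟩, mem_image.2 ⟨p - t i, hi, sub_add_cancel _ _⟩⟩

end Pool.Agent.N68.Corner
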