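import Mathlib

/-!
Riemann sums of Gaussian functions.
-/

set_option autoImplicit false

namespace Pool.Agent.N68.Corner

open Finset MeasureTheory Filter Topology

/-- `exp(-κ x²)` -/
noncomputable def g (κ x : ℝ) : ℝ := Real.exp (-(κ * x ^ 2))

lemma g_pos (κ x : ℝ) : 0 < g κ x := Real.exp_pos _

lemma g_le_one {κ : ℝ} (hκ : 0 ≤ κ) (x : ℝ) : g κ x ≤ 1 := by
  unfold g
  rw [Real.exp_le_one_iff]
  have := mul_nonneg hκ (sq_nonneg x)
  linarith

lemma g_anti {κ : ℝ} (hκ : 0 ≤ κ) {x y : ℝ} (h : |x| ≤ |y|) : g κ y ≤ g κ x := by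
  unfold g
  apply Real.exp_le_exp.2
  have := mul_le_mul_of_nonneg_left (sq_le_sq.2 h) hκ
  linarith

lemma g_cont (κ : ℝ) : Continuous (g κ) := by
  unfold g
  fun_prop

lemma g_neg (κ x : ℝ) : g κ (-x) = g κ x := by
  unfold g
  rw [neg_sq]

lemma g_int (κ : ℝ) (a b : ℝ) : IntervalIntegrable (g κ) volume a b :=
  (g_cont κ).intervalIntegrable a b

/-- `∫_0^K exp(-κ x²) dx` -/
noncomputable def J (κ : ℝ) (K : ℕ) : ℝ := ∫ x in (0 : ℝ)..K, g κ x

lemma J_tendsto {κ : ℝ} (hκ : 0 < κ) : Tendsto (J κ) atTop (𝓝 (Real.sqrt (Real.pi / κ) / 2)) := by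
  have h1 : IntegrableOn (g κ) (Set.Ioi 0) := by
    have := integrable_exp_neg_mul_sq hκ
    have h2 : (fun x : ℝ => Real.exp (-κ * x ^ 2)) = g κ := by
      funext x
      unfold g
      congr 1
      ring
    rw [h2] at this
    exact this.integrableOn
  have h3 := intervalIntegral_tendsto_integral_Ioi 0 h1 tendsto_natCast_atTop_atTop (ι := ℕ)
  have h4 : ∫ x in Set.Ioi (0 : ℝ), g κ x = Real.sqrt (Real.pi / κ) / 2 := by
    have := integral_gaussian_Ioi κ
    rw [← this]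
    congr 1
    funext x
    unfold g
    congr 1
    ring
  rw [h4] at h3
  exact h3

lemma J_le {κ : ℝ} (hκ : 0 < κ) (K : ℕ) : J κ K ≤ Real.sqrt (Real.pi / κ) / 2 := by
  have hm : Monotone (J κ) := by
    apply monotone_nat_of_le_succ
    intro n
    unfold J
    rw [← intervalIntegral.integral_add_adjacent_intervals (g_int κ 0 n) (g_int κ n (n + 1 : ℕ))]
    have : 0 ≤ ∫ x in (n : ℝ)..((n + 1 : ℕ) : ℝ), g κ x := by
      apply intervalIntegral.integral_nonneg
      · push_cast; linarith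
      · intro u _
        exact (g_pos κ u).le
    linarith
  exact hm.ge_of_tendsto (J_tendsto hκ) K

/-- lower bound for a sum over `0, ..., K` of a Gaussian, shift in `[0,1]` -/
lemma sum_ge {κ : ℝ} (hκ : 0 ≤ κ) (K : ℕ) (s : ℝ) (h0 : 0 ≤ s) :
    J κ K - s ≤ ∑ i ∈ range K, g κ (i + s) := by
  have hanti : AntitoneOn (fun x => g κ x) (Set.Icc s (s + K)) := by
    intro x hx y hy hxy
    apply g_anti hκ
    rw [abs_of_nonneg (by linarith [hx.1]), abs_of_nonneg (by linarith [hy.1])]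
    exact hxy
  have h1 := AntitoneOn.integral_le_sum (x₀ := s) (a := K) (f := fun x => g κ x) hanti
  have h2 : ∑ i ∈ range K, g κ (s + i) = ∑ i ∈ range K, g κ (i + s) :=
    sum_congr rfl fun i _ => by rw [add_comm]
  rw [h2] at h1
  refine le_trans ?_ h1
  have h3 : ∫ x in (0 : ℝ)..K, g κ x ≤ ∫ x in (0 : ℝ)..(s + K), g κ x := by
    rw [← intervalIntegral.integral_add_adjacent_intervals (g_int κ 0 K) (g_int κ K (s + K))]
    have : 0 ≤ ∫ x in (K : ℝ)..(s + K), g κ x := by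
      apply intervalIntegral.integral_nonneg (by linarith)
      intro u _
      exact (g_pos κ u).le
    linarith
  have h4 : ∫ x in (0 : ℝ)..(s + K), g κ x = (∫ x in (0 : ℝ)..s, g κ x) +
      ∫ x in s..(s + K), g κ x :=
    (intervalIntegral.integral_add_adjacent_intervals (g_int κ 0 s) (g_int κ s (s + K))).symm
  have h5 : ∫ x in (0 : ℝ)..s, g κ x ≤ s := by
    have : ∫ x in (0 : ℝ)..s, g κ x ≤ ∫ x in (0 : ℝ)..s, (1 : ℝ) := by
      apply intervalIntegral.integral_mono_on h0 (g_int κ 0 s) (by simp)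
      intro x _
      exact g_le_one hκ x
    simpa using this
  unfold J
  linarith

/-- upper bound for a sum over multiples of `m` -/
lemma sum_le {κ : ℝ} (hκ : 0 < κ) (m : ℝ) (hm : 0 < m) (K : ℕ) :
    ∑ i ∈ range K, g κ (m * i) ≤ 1 + Real.sqrt (Real.pi / κ) / (2 * m) := by
  have hk2 : (0 : ℝ) ≤ κ * m ^ 2 := by positivity
  have hk3 : (0 : ℝ) < κ * m ^ 2 := by positivity
  have he : ∀ x : ℝ, g κ (m * x) = g (κ * m ^ 2) x := by
    intro x
    unfold g
    congr 1
    ring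
  rcases Nat.eq_zero_or_pos K with hK | hK
  · subst hK
    simp only [range_zero, sum_empty]
    positivity
  obtain ⟨k, rfl⟩ : ∃ k, K = k + 1 := ⟨K - 1, by omega⟩
  rw [sum_range_succ']
  have hanti : AntitoneOn (fun x => g (κ * m ^ 2) x) (Set.Icc (0 : ℝ) (0 + k)) := by
    intro x hx y hy hxy
    apply g_anti hk2
    rw [abs_of_nonneg hx.1, abs_of_nonneg hy.1]
    exact hxy
  have h1 := AntitoneOn.sum_le_integral (x₀ := (0 : ℝ)) (a := k) (f := fun x => g (κ * m ^ 2) x)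
    hanti
  have h2 : ∑ i ∈ range k, g κ (m * ((i + 1 : ℕ) : ℝ)) =
      ∑ i ∈ range k, g (κ * m ^ 2) (0 + ((i + 1 : ℕ) : ℝ)) :=
    sum_congr rfl fun i _ => by rw [he, zero_add]
  rw [h2]
  have h3 : ∫ x in (0 : ℝ)..(0 + k), g (κ * m ^ 2) x ≤ Real.sqrt (Real.pi / (κ * m ^ 2)) / 2 := by
    have := J_le hk3 k
    unfold J at this
    rwa [zero_add]
  have h4 : Real.sqrt (Real.pi / (κ * m ^ 2)) / 2 = Real.sqrt (Real.pi / κ) / (2 * m) := by
    have : Real.pi / (κ * m ^ 2) = (Real.pi / κ) / m ^ 2 := by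
      field_simp
    rw [this, Real.sqrt_div (by positivity), Real.sqrt_sq hm.le]
    field_simp
  have h5 : g κ (m * ((0 : ℕ) : ℝ)) ≤ 1 := g_le_one hκ.le _
  have h6 := h1.trans h3
  rw [h4] at h6
  have h7 := add_le_add h6 h5
  rw [add_comm 1]
  exact h7

end Pool.Agent.N68.Corner
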