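import Pool.Agent.N68.Corner.Count

/-!
The limit: corner-free sets with `c^n` elements for every `c < (√3/2) m²`.
-/

set_option autoImplicit false
set_option linter.unusedSectionVars false

namespace Pool.Agent.N68.Corner

open Finset Filter Topology

/-- injective homomorphisms preserve corner-free sets -/
lemma CornerFree.image {G H : Type*} [AddCommGroup G] [AddCommGroup H] [DecidableEq H]
    (φ : G →+ H) (hφ : Function.Injective φ) {A : Finset (G × G)} (hA : CornerFree A) :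
    CornerFree (A.image (Prod.map φ φ)) := by
  intro x y z h1 h2 h3
  obtain ⟨⟨x0, y0⟩, m0, e0⟩ := mem_image.1 h1
  obtain ⟨⟨x1, y1⟩, m1, e1⟩ := mem_image.1 h2
  obtain ⟨⟨x2, y2⟩, m2, e2⟩ := mem_image.1 h3
  simp only [Prod.map_apply, Prod.mk.injEq] at e0 e1 e2
  have a1 : x1 = x0 := hφ (by rw [e1.1, e0.1])
  have a2 : y2 = y0 := hφ (by rw [e2.2, e0.2])
  have hz : z = φ (y1 - y0) := by rw [map_sub, e1.2, e0.2]; abel
  have a3 : x2 = x0 + (y1 - y0) := hφ (by rw [map_add, ← hz, e2.1, e0.1])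
  subst a1 a2 a3
  have := hA x1 y2 (y1 - y2) m0 (by rwa [add_sub_cancel]) m2
  rw [hz, this, map_zero]

/-- a choice of parameters -/
lemma exists_param (m : ℕ) [NeZero m] (c : ℝ) (hc : c < Real.sqrt 3 / 2 * (m : ℝ) ^ 2) :
    ∃ (β : ℝ) (L : ℕ), 0 < β ∧
      c * (2 + Real.sqrt (Real.pi / (3 * β / 2)) / m) ^ 2 ≤ theta β L := by
  have hm : (0 : ℝ) < m := by exact_mod_cast Nat.pos_of_ne_zero (NeZero.ne m)
  have hpi := Real.pi_pos
  have h3 : (1 : ℝ) < Real.sqrt 3 := by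
    rw [show (1 : ℝ) = Real.sqrt 1 by simp]
    exact Real.sqrt_lt_sqrt (by norm_num) (by norm_num)
  -- the scale
  obtain ⟨t, ht0, ht1, ht⟩ : ∃ t : ℝ, 0 < t ∧ t ≤ 1 / 4 ∧
      c * (2 * t + 1 / m) ^ 2 ≤ 2 * ((Real.sqrt 3 / 2 - 2 * t) * (1 / 2 - 2 * t)) := by
    have hcont : Continuous fun t : ℝ =>
        2 * ((Real.sqrt 3 / 2 - 2 * t) * (1 / 2 - 2 * t)) - c * (2 * t + 1 / m) ^ 2 := by
      fun_prop
    have h0 : 0 < 2 * ((Real.sqrt 3 / 2 - 2 * (0 : ℝ)) * (1 / 2 - 2 * 0)) -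
        c * (2 * 0 + 1 / m) ^ 2 := by
      have : c * (1 / (m : ℝ)) ^ 2 < Real.sqrt 3 / 2 := by
        rw [one_div, inv_pow, ← div_eq_mul_inv, div_lt_iff₀ (by positivity)]
        exact hc
      have e : 2 * ((Real.sqrt 3 / 2 - 2 * (0 : ℝ)) * (1 / 2 - 2 * 0)) -
        c * (2 * 0 + 1 / m) ^ 2 = Real.sqrt 3 / 2 - c * (1 / (m : ℝ)) ^ 2 := by ring
      rw [e]
      linarith
    have hev := hcont.continuousAt.eventually (lt_mem_nhds h0)
    obtain ⟨δ, hδ, hd⟩ := Metric.eventually_nhds_iff.1 hev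
    refine ⟨min (δ / 2) (1 / 4), by positivity, min_le_right _ _, ?_⟩
    have hlt : dist (min (δ / 2) (1 / 4)) 0 < δ := by
      rw [Real.dist_eq, sub_zero, abs_of_pos (by positivity)]
      exact (min_le_left _ _).trans_lt (by linarith)
    have := hd hlt
    linarith
  set X : ℝ := 1 / t with hX
  have hX0 : 0 < X := by positivity
  set β : ℝ := 2 * Real.pi / (3 * X ^ 2) with hβ
  have hβ0 : 0 < β := by positivity
  have s1 : Real.sqrt (Real.pi / (3 * β / 2)) = X := by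
    have : Real.pi / (3 * β / 2) = X ^ 2 := by rw [hβ]; field_simp
    rw [this, Real.sqrt_sq hX0.le]
  have s2 : Real.sqrt (Real.pi / (2 * β)) = Real.sqrt 3 / 2 * X := by
    have : Real.pi / (2 * β) = 3 * (X / 2) ^ 2 := by rw [hβ]; field_simp
    rw [this, Real.sqrt_mul (by norm_num), Real.sqrt_sq (by positivity)]
    ring
  have s3 : Real.sqrt (Real.pi / (6 * β)) = X / 2 := by
    have : Real.pi / (6 * β) = (X / 2) ^ 2 := by rw [hβ]; field_simp; norm_num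
    rw [this, Real.sqrt_sq (by positivity)]
  have t1 := J_tendsto (κ := 2 * β) (by positivity)
  have t2 := J_tendsto (κ := 6 * β) (by positivity)
  rw [s2] at t1
  rw [s3] at t2
  have e1 := t1.eventually (lt_mem_nhds (show Real.sqrt 3 / 2 * X / 2 - 1 / 2 <
    Real.sqrt 3 / 2 * X / 2 by linarith))
  have e2 := t2.eventually (lt_mem_nhds (show X / 2 / 2 - 1 / 2 < X / 2 / 2 by linarith))
  obtain ⟨K, k1, k2⟩ := (e1.and e2).exists
  have hX4 : 4 ≤ X := by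
    rw [hX, le_div_iff₀ ht0]
    linarith
  refine ⟨β, 2 * K + 1, hβ0, ?_⟩
  have h4 : Real.sqrt 3 * X ≥ X := by nlinarith
  refine le_trans ?_ (theta_ge hβ0.le K (2 * K + 1) le_rfl (by nlinarith) (by nlinarith))
  rw [s1]
  have h5 : Real.sqrt 3 / 2 * X - 2 ≤ 2 * J (2 * β) K - 1 := by linarith
  have h6 : X / 2 - 2 ≤ 2 * J (6 * β) K - 1 := by linarith
  have h7 : (Real.sqrt 3 / 2 * X - 2) * (X / 2 - 2) ≤
      (2 * J (2 * β) K - 1) * (2 * J (6 * β) K - 1) :=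
    mul_le_mul h5 h6 (by linarith) (by nlinarith)
  have htX : t * X = 1 := by rw [hX]; field_simp
  have h8 : c * (2 + X / m) ^ 2 = X ^ 2 * (c * (2 * t + 1 / m) ^ 2) := by
    have : 2 + X / m = X * (2 * t + 1 / m) := by
      have : X * (2 * t + 1 / m) = 2 * (t * X) + X / m := by ring
      rw [this, htX]; ring
    rw [this]; ring
  have h9 : X ^ 2 * (2 * ((Real.sqrt 3 / 2 - 2 * t) * (1 / 2 - 2 * t))) =
      2 * ((Real.sqrt 3 / 2 * X - 2) * (X / 2 - 2)) := by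
    have : X ^ 2 * (2 * ((Real.sqrt 3 / 2 - 2 * t) * (1 / 2 - 2 * t))) =
      2 * ((Real.sqrt 3 / 2 * X - 2 * (t * X)) * (X / 2 - 2 * (t * X))) := by ring
    rw [this, htX]; ring
  rw [h8]
  calc X ^ 2 * (c * (2 * t + 1 / m) ^ 2)
      ≤ X ^ 2 * (2 * ((Real.sqrt 3 / 2 - 2 * t) * (1 / 2 - 2 * t))) :=
        mul_le_mul_of_nonneg_left ht (sq_nonneg X)
    _ = 2 * ((Real.sqrt 3 / 2 * X - 2) * (X / 2 - 2)) := h9
    _ ≤ _ := by linarith

/-- **Main theorem.** For every `c < (√3/2) m²` and all large `n` there is a corner-free set in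
`((ℤ/m)^n)²` with at least `c^n` elements. -/
theorem exists_cornerFree (m : ℕ) [NeZero m] (c : ℝ) (hc0 : 0 ≤ c)
    (hc : c < Real.sqrt 3 / 2 * (m : ℝ) ^ 2) :
    ∃ n0 : ℕ, ∀ n, n0 ≤ n → ∃ A : Finset ((Fin n → ZMod m) × (Fin n → ZMod m)),
      CornerFree A ∧ c ^ n ≤ A.card := by
  classical
  rcases lt_or_ge c 1 with h1 | h1
  · refine ⟨0, fun n _ => ⟨{(0, 0)}, ?_, ?_⟩⟩
    · intro x y z h1 h2 _
      simp only [mem_singleton, Prod.mk.injEq] at h1 h2
      have := h2.2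
      rw [h1.2, zero_add] at this
      exact this
    · rw [card_singleton]
      push_cast
      exact pow_le_one₀ hc0 h1.le
  obtain ⟨c', hcc', hc'⟩ := exists_between hc
  have hc'1 : 1 < c' := lt_of_le_of_lt h1 hcc'
  obtain ⟨β, L, hβ, hθ⟩ := exists_param m c' hc'
  set Θ : ℝ := 2 + Real.sqrt (Real.pi / (3 * β / 2)) / m with hΘ
  have hΘ0 : 0 < Θ := by positivity
  -- growth
  set C : ℝ := 2 * (4 * (L : ℝ) + 14) ^ 2 * ((L : ℝ) ^ 2 + 1) ^ 9 * 2 ^ 9 * c' ^ 2 with hC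
  have hC0 : 0 < C := by positivity
  have hr : |c / c'| < 1 := by
    rw [abs_of_nonneg (by positivity), div_lt_one (by linarith)]
    exact hcc'
  have hlim := tendsto_pow_const_mul_const_pow_of_abs_lt_one 9 hr
  have hev := hlim.eventually (gt_mem_nhds (show (0 : ℝ) < 1 / C by positivity))
  obtain ⟨n1, hn1⟩ := eventually_atTop.1 hev
  refine ⟨max n1 1, fun n hn => ?_⟩
  have hn1' := hn1 n ((le_max_left _ _).trans hn)
  have hn' : 1 ≤ n := (le_max_right _ _).trans hn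
  set k := n / 3 with hk
  have hk3 : 3 * k ≤ n := Nat.mul_div_le n 3
  have hk4 : n ≤ 3 * k + 2 := by omega
  obtain ⟨A, hA, hAc⟩ := main_finite m hβ L k
  -- transfer
  have hcard : Fintype.card (Fin 3 × Fin k) ≤ Fintype.card (Fin n) := by
    simp only [Fintype.card_prod, Fintype.card_fin]
    exact hk3
  obtain ⟨e⟩ := Function.Embedding.nonempty_of_card_le hcard
  let φ : (Fin 3 × Fin k → ZMod m) →+ (Fin n → ZMod m) := Function.ExtendByZero.hom (ZMod m) e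
  have hφ : Function.Injective φ := by
    intro f g hfg
    funext i
    have := congrFun hfg (e i)
    simp only [φ, Function.ExtendByZero.hom_apply, e.injective.extend_apply] at this
    exact this
  refine ⟨A.image (Prod.map φ φ), hA.image φ hφ, ?_⟩
  rw [card_image_of_injective _ (Prod.map_injective.2 ⟨hφ, hφ⟩)]
  -- the estimate
  have h2 : c' ^ (3 * k) * Θ ^ (6 * k) ≤ theta β L ^ (3 * k) := by
    have : c' ^ (3 * k) * Θ ^ (6 * k) = (c' * Θ ^ 2) ^ (3 * k) := by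
      rw [mul_pow, ← pow_mul]
      congr 2
      ring
    rw [this]
    exact pow_le_pow_left₀ (by positivity) hθ _
  have h3 := h2.trans hAc
  have h4 : c' ^ (3 * k) ≤ 2 * (4 * (L : ℝ) + 14) ^ 2 * ((L : ℝ) ^ 2 * k + 1) ^ 9 * A.card := by
    have hpos : 0 < Θ ^ (6 * k) := by positivity
    refine le_of_mul_le_mul_right ?_ hpos
    calc c' ^ (3 * k) * Θ ^ (6 * k) ≤ _ := h3
      _ = _ := by ring
  have h5 : ((L : ℝ) ^ 2 * k + 1) ^ 9 ≤ ((L : ℝ) ^ 2 + 1) ^ 9 * 2 ^ 9 * (n : ℝ) ^ 9 := by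
    rw [← mul_pow, ← mul_pow]
    apply pow_le_pow_left₀ (by positivity)
    have a1 : (k : ℝ) ≤ n := by exact_mod_cast Nat.div_le_self n 3
    have a2 : (1 : ℝ) ≤ n := by exact_mod_cast hn'
    have a3 : (0 : ℝ) ≤ (L : ℝ) ^ 2 := by positivity
    nlinarith
  have h6 : c' ^ n ≤ c' ^ 2 * c' ^ (3 * k) := by
    rw [← pow_add]
    exact pow_le_pow_right₀ hc'1.le (by omega)
  have h7 : c' ^ n ≤ C * (n : ℝ) ^ 9 * A.card := by
    calc c' ^ n ≤ c' ^ 2 * c' ^ (3 * k) := h6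
      _ ≤ c' ^ 2 * (2 * (4 * (L : ℝ) + 14) ^ 2 * ((L : ℝ) ^ 2 * k + 1) ^ 9 * A.card) :=
        mul_le_mul_of_nonneg_left h4 (by positivity)
      _ = (c' ^ 2 * (2 * (4 * (L : ℝ) + 14) ^ 2) * A.card) * ((L : ℝ) ^ 2 * k + 1) ^ 9 := by ring
      _ ≤ (c' ^ 2 * (2 * (4 * (L : ℝ) + 14) ^ 2) * A.card) *
          (((L : ℝ) ^ 2 + 1) ^ 9 * 2 ^ 9 * (n : ℝ) ^ 9) :=
        mul_le_mul_of_nonneg_left h5 (by positivity)
      _ = C * (n : ℝ) ^ 9 * A.card := by rw [hC]; ring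
  -- conclusion
  have hc'n : 0 < c' ^ n := by positivity
  have h8 : C * (n : ℝ) ^ 9 * c ^ n ≤ c' ^ n := by
    rw [div_pow, lt_div_iff₀ hC0, ← mul_div_assoc, div_mul_eq_mul_div, div_lt_one hc'n] at hn1'
    calc C * (n : ℝ) ^ 9 * c ^ n = (n : ℝ) ^ 9 * c ^ n * C := by ring
      _ ≤ c' ^ n := hn1'.le
  have h9 := h8.trans h7
  have h10 : 0 < C * (n : ℝ) ^ 9 := by
    have : (0 : ℝ) < n := by exact_mod_cast hn'
    positivity
  exact le_of_mul_le_mul_left h9 h10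

end Pool.Agent.N68.Corner
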