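import Pool.Agent.N68.Corner.Gauss

/-!
The sums `theta` and the sums over residue classes.
-/

set_option autoImplicit false

namespace Pool.Agent.N68.Corner

open Finset MeasureTheory Filter Topology

lemma sum_split {M : Type*} [AddCommMonoid M] (f : ℤ → M) (K : ℕ) :
    ∑ i ∈ Ico (-(K : ℤ)) K, f i = ∑ k ∈ range K, f k + ∑ k ∈ range K, f (-((k : ℤ) + 1)) := by
  induction K with
  | zero => simp
  | succ K ih =>
    have h1 : Ico (-((K + 1 : ℕ) : ℤ)) ((K + 1 : ℕ) : ℤ) =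
        insert (K : ℤ) (insert (-((K : ℤ) + 1)) (Ico (-(K : ℤ)) K)) := by
      ext i
      simp only [mem_insert, mem_Ico]
      push_cast
      omega
    rw [h1, sum_insert, sum_insert, ih, sum_range_succ, sum_range_succ]
    · abel
    · simp only [mem_Ico]
      omega
    · simp only [mem_insert, mem_Ico]
      omega

lemma sum_shift_ge {κ : ℝ} (hκ : 0 ≤ κ) (K : ℕ) (t : ℝ) (h0 : 0 ≤ t) (h1 : t ≤ 1) :
    2 * J κ K - 1 ≤ ∑ i ∈ Ico (-(K : ℤ)) K, g κ (i + t) := by
  rw [sum_split]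
  have e1 := sum_ge hκ K t h0
  have e2 := sum_ge hκ K (1 - t) (by linarith)
  have e3 : ∑ k ∈ range K, g κ (((-((k : ℤ) + 1) : ℤ) : ℝ) + t) =
      ∑ i ∈ range K, g κ (i + (1 - t)) := by
    apply sum_congr rfl
    intro k _
    rw [← g_neg]
    congr 1
    push_cast
    ring
  rw [e3]
  have e4 : ∑ k ∈ range K, g κ (((k : ℤ) : ℝ) + t) = ∑ i ∈ range K, g κ (i + t) := by
    apply sum_congr rfl
    intro k _
    norm_cast
  rw [e4]
  linarith

/-- the letters: pairs of integers `(a, b)` with `a`, `b` and `a + b` in `[-L, L]` -/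
noncomputable def D (L : ℕ) : Finset (ℤ × ℤ) :=
  ((Icc (-(L : ℤ)) L) ×ˢ (Icc (-(L : ℤ)) L)).filter (fun p => |p.1 + p.2| ≤ L)

lemma mem_D {L : ℕ} {p : ℤ × ℤ} : p ∈ D L ↔ |p.1| ≤ L ∧ |p.2| ≤ L ∧ |p.1 + p.2| ≤ L := by
  unfold D
  rw [mem_filter, mem_product, mem_Icc, mem_Icc, abs_le, abs_le, abs_le]
  tauto

/-- weight of a letter -/
noncomputable def wt (β : ℝ) (p : ℤ × ℤ) : ℝ :=
  Real.exp (-(β * ((p.1 : ℝ) ^ 2 + (p.2 : ℝ) ^ 2 + ((p.1 : ℝ) + p.2) ^ 2)))

lemma wt_pos (β : ℝ) (p : ℤ × ℤ) : 0 < wt β p := Real.exp_pos _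

/-- total weight of the letters -/
noncomputable def theta (β : ℝ) (L : ℕ) : ℝ := ∑ p ∈ D L, wt β p

lemma theta_ge {β : ℝ} (hβ : 0 ≤ β) (K L : ℕ) (hL : 2 * K + 1 ≤ L)
    (h1 : 1 ≤ 2 * J (2 * β) K) (h2 : 1 ≤ 2 * J (6 * β) K) :
    2 * ((2 * J (2 * β) K - 1) * (2 * J (6 * β) K - 1)) ≤ theta β L := by
  classical
  set I := Ico (-(K : ℤ)) K with hI
  let φ : ℤ × (ℤ × ℤ) → ℤ × ℤ := fun q => (q.2.1 - q.2.2, 2 * q.2.2 + q.1)
  set Q : Finset (ℤ × (ℤ × ℤ)) := ({0, 1} : Finset ℤ) ×ˢ (I ×ˢ I) with hQ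
  have hinj : Set.InjOn φ Q := by
    rintro ⟨e, i, j⟩ hq ⟨e', i', j'⟩ hq' h
    simp only [hQ, hI, coe_product, Set.mem_prod, mem_coe, mem_insert, mem_singleton, mem_Ico]
      at hq hq'
    simp only [φ, Prod.mk.injEq] at h
    simp only [Prod.mk.injEq]
    omega
  have hsub : Q.image φ ⊆ D L := by
    intro p hp
    obtain ⟨⟨e, i, j⟩, hq, rfl⟩ := mem_image.1 hp
    simp only [hQ, hI, mem_product, mem_insert, mem_singleton, mem_Ico] at hq
    rw [mem_D]
    simp only [φ]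
    refine ⟨abs_le.2 ⟨by omega, by omega⟩, abs_le.2 ⟨by omega, by omega⟩,
      abs_le.2 ⟨by omega, by omega⟩⟩
  have h3 : ∑ q ∈ Q, wt β (φ q) ≤ theta β L := by
    unfold theta
    rw [← sum_image hinj]
    exact sum_le_sum_of_subset_of_nonneg hsub fun p _ _ => (wt_pos β p).le
  refine le_trans ?_ h3
  have h4 : ∀ e : ℤ, e = 0 ∨ e = 1 → (2 * J (2 * β) K - 1) * (2 * J (6 * β) K - 1) ≤
      ∑ q ∈ I ×ˢ I, wt β (φ (e, q)) := by
    intro e he
    have ht0 : (0 : ℝ) ≤ (e : ℝ) / 2 := by rcases he with rfl | rfl <;> norm_num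
    have ht1 : (e : ℝ) / 2 ≤ 1 := by rcases he with rfl | rfl <;> norm_num
    have hs : ∑ q ∈ I ×ˢ I, wt β (φ (e, q)) =
        (∑ i ∈ I, g (2 * β) (i + (e : ℝ) / 2)) * ∑ j ∈ I, g (6 * β) (j + (e : ℝ) / 2) := by
      rw [sum_mul_sum, ← sum_product']
      apply sum_congr rfl
      rintro ⟨i, j⟩ _
      unfold wt g
      rw [← Real.exp_add]
      congr 1
      simp only [φ]
      push_cast
      ring
    rw [hs]
    have e1 := sum_shift_ge (κ := 2 * β) (by positivity) K _ ht0 ht1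
    have e2 := sum_shift_ge (κ := 6 * β) (by positivity) K _ ht0 ht1
    apply mul_le_mul e1 e2 (by linarith) (le_trans (by linarith) e1)
  have h5 : ∑ q ∈ Q, wt β (φ q) = ∑ e ∈ ({0, 1} : Finset ℤ), ∑ q ∈ I ×ˢ I, wt β (φ (e, q)) := by
    rw [hQ, sum_product]
  rw [h5, sum_pair (by norm_num)]
  have := h4 0 (Or.inl rfl)
  have := h4 1 (Or.inr rfl)
  linarith

/-- Gaussian sums over residue classes -/
lemma class_le {κ : ℝ} (hκ : 0 < κ) (m : ℕ) [NeZero m] (L : ℕ) (x : ZMod m) :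
    ∑ c ∈ (Icc (-(L : ℤ)) L).filter (fun c : ℤ => (c : ZMod m) = x), g κ c ≤
      2 + Real.sqrt (Real.pi / κ) / m := by
  classical
  have hm : 0 < m := Nat.pos_of_ne_zero (NeZero.ne m)
  have hmZ : (0 : ℤ) < m := by exact_mod_cast hm
  have hmR : (0 : ℝ) < m := by exact_mod_cast hm
  set S := (Icc (-(L : ℤ)) L).filter (fun c : ℤ => (c : ZMod m) = x) with hS
  let F : ℤ → ℝ := fun k => if 0 ≤ k then g κ (m * k) else g κ (m * (k + 1))
  have hmod : ∀ c ∈ S, c % m = x.val := by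
    intro c hc
    have h1 : (c : ZMod m) = x := (mem_filter.1 hc).2
    have h2 : ((c : ZMod m)).val = x.val := by rw [h1]
    have h3 := ZMod.val_intCast (n := m) c
    rw [← h3, h2]
  have hinj : Set.InjOn (fun c : ℤ => c / m) S := by
    intro c hc c' hc' h
    have h1 := hmod c hc
    have h2 := hmod c' hc'
    have h3 := Int.mul_ediv_add_emod c m
    have h4 := Int.mul_ediv_add_emod c' m
    simp only at h
    rw [← h3, ← h4, h, h1, h2]
  have hle : ∀ c ∈ S, g κ c ≤ F (c / m) := by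
    intro c _
    have h3 := Int.mul_ediv_add_emod c m
    have h4 := Int.emod_nonneg c hmZ.ne'
    have h5 := Int.emod_lt_of_pos c hmZ
    simp only [F]
    split_ifs with h
    · apply g_anti hκ.le
      have h6 : (0 : ℤ) ≤ m * (c / m) := mul_nonneg hmZ.le h
      have h7 : (m : ℤ) * (c / m) ≤ c := by linarith
      have h8 : |((m : ℤ) * (c / m))| ≤ |c| := by
        rw [abs_of_nonneg h6, abs_of_nonneg (h6.trans h7)]
        exact h7
      have : ((|((m : ℤ) * (c / m))| : ℤ) : ℝ) ≤ ((|c| : ℤ) : ℝ) := by exact_mod_cast h8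
      push_cast at this
      exact this
    · apply g_anti hκ.le
      push Not at h
      have h6 : (m : ℤ) * (c / m + 1) ≤ 0 := by
        apply mul_nonpos_of_nonneg_of_nonpos hmZ.le
        omega
      have h7 : c ≤ (m : ℤ) * (c / m + 1) := by
        rw [mul_add, mul_one]; linarith
      have h8 : |((m : ℤ) * (c / m + 1))| ≤ |c| := by
        rw [abs_of_nonpos h6, abs_of_nonpos (h7.trans h6)]
        linarith
      have : ((|((m : ℤ) * (c / m + 1))| : ℤ) : ℝ) ≤ ((|c| : ℤ) : ℝ) := by exact_mod_cast h8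
      push_cast at this
      exact this
  have hF : ∀ k, 0 ≤ F k := by
    intro k
    simp only [F]
    split_ifs
    · exact (g_pos _ _).le
    · exact (g_pos _ _).le
  calc ∑ c ∈ S, g κ c ≤ ∑ c ∈ S, F (c / m) := sum_le_sum hle
    _ = ∑ k ∈ S.image (fun c : ℤ => c / m), F k := by rw [sum_image hinj]
    _ ≤ ∑ k ∈ Ico (-((L + 1 : ℕ) : ℤ)) ((L + 1 : ℕ) : ℤ), F k := by
        apply sum_le_sum_of_subset_of_nonneg
        · intro k hk
          obtain ⟨c, hc, rfl⟩ := mem_image.1 hk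
          have hc1 := mem_Icc.1 (mem_filter.1 hc).1
          rw [mem_Ico]
          push_cast
          constructor
          · rw [Int.le_ediv_iff_mul_le hmZ]
            nlinarith
          · rw [Int.ediv_lt_iff_lt_mul hmZ]
            nlinarith
        · intro k _ _
          exact hF k
    _ = 2 * ∑ k ∈ range (L + 1), g κ (m * k) := by
        have e1 : ∀ k ∈ range (L + 1), F (k : ℤ) = g κ (m * k) := by
          intro k _
          have h0 : (0 : ℤ) ≤ (k : ℤ) := by omega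
          simp only [F]
          rw [if_pos h0]
          norm_cast
        have e2 : ∀ k ∈ range (L + 1), F (-((k : ℤ) + 1)) = g κ (m * k) := by
          intro k _
          have h0 : ¬ (0 : ℤ) ≤ -((k : ℤ) + 1) := by omega
          simp only [F]
          rw [if_neg h0, ← g_neg]
          congr 1
          push_cast
          ring
        rw [sum_split, two_mul, sum_congr rfl e1, sum_congr rfl e2]
    _ ≤ 2 * (1 + Real.sqrt (Real.pi / κ) / (2 * m)) := by
        have := sum_le hκ m hmR (L + 1)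
        linarith
    _ = 2 + Real.sqrt (Real.pi / κ) / m := by
        field_simp

end Pool.Agent.N68.Corner
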